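import Pool.Agent.Helper5.FRC.Defs

/-!
# STAR (project FRC, MP_79b960_co)
-/

set_option autoImplicit false

namespace Pool.Agent.Helper2.FRC.STAR

open Finset
open Pool.Agent.Helper5.FRC

section

variable {V : Type} [DecidableEq V]

omit [DecidableEq V] in
/-- A finite set with an involution without fixed points is even. -/
theorem even_invol (S : Finset V) (t : V → V) (h : ∀ x ∈ S, t x ∈ S ∧ t (t x) = x ∧ t x ≠ x) :
    Even S.card := by
  have h1 : ∑ x ∈ S, (1 : ZMod 2) = 0 := by
    refine Finset.sum_involution (fun a _ => t a) ?_ ?_ ?_ ?_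
    · intro a _
      exact CharTwo.add_self_eq_zero _
    · intro a ha _
      exact (h a ha).2.2
    · intro a ha
      exact (h a ha).1
    · intro a ha
      exact (h a ha).2.1
  rw [Finset.sum_const, nsmul_eq_mul, mul_one] at h1
  exact (ZMod.natCast_eq_zero_iff_even).mp h1

end

theorem t (hN : NprStmt) (hSl : SlideStmt) : StarStmt := by
  intro V _ _ n A t C hn hP hB hC hO hD hA hst
  -- disjointness
  have hdis : ∀ i j x, x ∈ C i → x ∈ C j → i = j := by
    intro i j x hi hj
    by_contra hij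
    exact (Finset.disjoint_left.mp (hD i j hij)) hi hj
  have hCA : ∀ i, C i ⊆ A := by
    intro i x hx
    rw [hA]
    exact Finset.mem_biUnion.mpr ⟨i, Finset.mem_univ i, hx⟩
  have hAC : ∀ x ∈ A, ∃ i, x ∈ C i := by
    intro x hx
    rw [hA] at hx
    obtain ⟨i, -, hi⟩ := Finset.mem_biUnion.mp hx
    exact ⟨i, hi⟩
  have htA : ∀ x ∈ A, t x ∈ A := fun x hx => (hP x hx).1
  have htt : ∀ x ∈ A, t (t x) = x := fun x hx => (hP x hx).2.1
  have htn : ∀ x ∈ A, t x ≠ x := fun x hx => (hP x hx).2.2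
  -- the number of edges between `C i` and `C 3`
  have hodd : ∀ i, Odd (dm t (C i)) := by
    intro i
    have h1 : ((C i).filter fun x => t x ∈ C i).card + ((C i).filter fun x => ¬ t x ∈ C i).card
        = (C i).card := Finset.card_filter_add_card_filter_not _
    have h2 : Even ((C i).filter fun x => t x ∈ C i).card := by
      refine even_invol _ t ?_
      intro x hx
      rw [Finset.mem_filter] at hx
      have hxA := hCA i hx.1
      refine ⟨?_, htt x hxA, htn x hxA⟩
      rw [Finset.mem_filter, htt x hxA]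
      exact ⟨hx.2, hx.1⟩
    have h3 := hO i
    rw [← h1, Nat.odd_add'] at h3
    exact h3.mpr h2
  have h3 : ∀ i, 3 ≤ dm t (C i) := by
    intro i
    have h1 := hB (C i) (hCA i) (hC i).2.1 (hO i)
    have h2 := hodd i
    obtain ⟨k, hk⟩ := h2
    omega
  -- the sets `E i` and `F i`
  have hE : ∀ i : Fin 4, i ≠ 3 → (C i).filter (fun x => t x ∉ C i) =
      (C i).filter fun x => t x ∈ C 3 := by
    intro i hi
    ext x
    rw [Finset.mem_filter, Finset.mem_filter]
    refine and_congr_right fun hx => ?_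
    constructor
    · intro h
      exact (hst i hi x hx).resolve_left h
    · intro h h'
      exact hi (hdis i 3 _ h' h)
  have hF : ∀ i : Fin 4, i ≠ 3 → ((C 3).filter fun x => t x ∈ C i).card = dm t (C i) := by
    intro i hi
    unfold dm
    rw [hE i hi]
    refine Finset.card_bij' (fun x _ => t x) (fun x _ => t x) ?_ ?_ ?_ ?_
    · intro x hx
      rw [Finset.mem_filter] at hx ⊢
      rw [htt x (hCA 3 hx.1)]
      exact ⟨hx.2, hx.1⟩
    · intro x hx
      rw [Finset.mem_filter] at hx ⊢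
      rw [htt x (hCA i hx.1)]
      exact ⟨hx.2, hx.1⟩
    · intro x hx
      rw [Finset.mem_filter] at hx
      exact htt x (hCA 3 hx.1)
    · intro x hx
      rw [Finset.mem_filter] at hx
      exact htt x (hCA i hx.1)
  -- the data for SLIDE
  set b : V → V := fun x => if t x ∈ C 3 then t x else x with hb
  set col : V → Fin 3 := fun x => if t x ∈ C 0 then 0 else if t x ∈ C 1 then 1 else 2 with hcol
  have hbC : ∀ x ∈ C 3, b x ∈ C 3 ∧ b (b x) = x := by
    intro x hx
    by_cases h : t x ∈ C 3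
    · have e1 : b x = t x := by simp only [hb, if_pos h]
      have e2 : b (t x) = x := by
        simp only [hb]
        rw [htt x (hCA 3 hx), if_pos hx]
      rw [e1, e2]
      exact ⟨h, rfl⟩
    · have e1 : b x = x := by simp only [hb, if_neg h]
      rw [e1, e1]
      exact ⟨hx, rfl⟩
  have hbf : ∀ x ∈ C 3, (b x = x ↔ t x ∉ C 3) := by
    intro x hx
    constructor
    · intro h h'
      have e1 : b x = t x := by simp only [hb, if_pos h']
      rw [e1] at h
      exact htn x (hCA 3 hx) h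
    · intro h
      simp only [hb, if_neg h]
  have hcc : ∀ x ∈ C 3, t x ∉ C 3 → ∀ i : Fin 3, (col x = i ↔ t x ∈ C i.castSucc) := by
    intro x hx h i
    obtain ⟨j, hj⟩ := hAC (t x) (htA x (hCA 3 hx))
    have d : ∀ k, t x ∈ C k ↔ k = j := fun k =>
      ⟨fun hk => hdis k j _ hk hj, fun hk => hk ▸ hj⟩
    have hj3 : j ≠ 3 := fun e => h (e ▸ hj)
    simp only [hcol, d]
    fin_cases i <;> fin_cases j <;> simp at hj3 ⊢
  have hFi : ∀ i : Fin 3, ((C 3).filter fun x => b x = x ∧ col x = i) =
      (C 3).filter fun x => t x ∈ C i.castSucc := by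
    intro i
    ext x
    rw [Finset.mem_filter, Finset.mem_filter]
    refine and_congr_right fun hx => ?_
    rw [hbf x hx]
    constructor
    · rintro ⟨h1, h2⟩
      exact (hcc x hx h1 i).mp h2
    · intro h1
      have h2 : t x ∉ C 3 := by
        intro h2
        have := hdis _ _ _ h1 h2
        revert this
        fin_cases i <;> simp
      exact ⟨h2, (hcc x hx h2 i).mpr h1⟩
  have hi3 : ∀ i : Fin 3, i.castSucc ≠ (3 : Fin 4) := by decide
  obtain ⟨p, hp, q, Y3, hY3, hq, hpY, hcl, hone⟩ := hSl V n (C 3) (hC 3) (hO 3) b col hbC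
    (fun i => by rw [hFi i, hF _ (hi3 i)]; exact hodd _)
  -- the points `y i`
  have hone' : ∀ i : Fin 3, ∃ y ∈ Y3, t y ∈ C i.castSucc ∧
      ∀ x ∈ Y3, t x ∈ C i.castSucc → x = y := by
    intro i
    obtain ⟨y, hy⟩ := Finset.card_eq_one.mp (hone i)
    have e : ∀ x, (x ∈ Y3 ∧ t x ∈ C i.castSucc) ↔ x = y := by
      intro x
      rw [← Finset.mem_singleton, ← hy, Finset.mem_filter]
      refine and_congr_right fun hx => ?_
      have h1 : x ∈ (C 3).filter (fun x => b x = x ∧ col x = i) ↔
          x ∈ (C 3).filter fun x => t x ∈ C i.castSucc := by rw [hFi i]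
      rw [Finset.mem_filter, Finset.mem_filter] at h1
      have h2 := hY3 hx
      simp only [h2, true_and] at h1
      exact h1.symm
    have h2 := (e y).mpr rfl
    exact ⟨y, h2.1, h2.2, fun x hx hx' => (e x).mp ⟨hx, hx'⟩⟩
  choose y hyY hyC hyu using hone'
  -- the pairings
  have hQ : ∀ i : Fin 3, ∃ q' : V → V, Npr n (C i.castSucc) (t (y i)) q' := fun i =>
    hN V n (C i.castSucc) (hC _) (hO _) _ (hyC i)
  choose Q' hQ' using hQ
  obtain ⟨Q, pt, hQpt, hQ3, hpt3, hpti⟩ : ∃ (Q : Fin 4 → V → V) (pt : Fin 4 → V),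
      (∀ i, Npr n (C i) (pt i) (Q i)) ∧ Q 3 = q ∧ pt 3 = p ∧
        ∀ i : Fin 3, pt i.castSucc = t (y i) := by
    refine ⟨Fin.snoc (α := fun _ => V → V) Q' q, Fin.snoc (α := fun _ => V) (fun i => t (y i)) p,
      ?_, ?_, ?_, ?_⟩
    · intro i
      refine Fin.lastCases ?_ ?_ i
      · rw [Fin.snoc_last, Fin.snoc_last]
        exact hq
      · intro j
        rw [Fin.snoc_castSucc, Fin.snoc_castSucc]
        exact hQ' j
    · exact Fin.snoc_last (α := fun _ => V → V) _ _
    · exact Fin.snoc_last (α := fun _ => V) _ _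
    · intro i
      exact Fin.snoc_castSucc (α := fun _ => V) _ _ _
  obtain ⟨P, hPQ⟩ : ∃ P : V → V, ∀ i, ∀ v ∈ C i, P v = Q i v := by
    classical
    refine ⟨fun v => if h : ∃ i, v ∈ C i then Q h.choose v else v, ?_⟩
    intro i v hv
    have h : ∃ i, v ∈ C i := ⟨i, hv⟩
    have e : h.choose = i := hdis _ _ _ h.choose_spec hv
    simp only [dif_pos h, e]
  have hsplit : ∀ j : Fin 4, j = 3 ∨ ∃ i : Fin 3, j = i.castSucc := by decide
  have hzY3 : ∀ i : Fin 3, t (y i) ∉ C 3 := fun i h => hi3 i (hdis _ _ _ (hyC i) h)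
  have hyA : ∀ i, y i ∈ A := fun i => hCA 3 (hY3 (hyY i))
  -- membership in `Y`
  set Y : Finset V := Y3 ∪ Finset.univ.image fun i : Fin 3 => t (y i) with hYdef
  have hmY : ∀ x, x ∈ Y ↔ x ∈ Y3 ∨ ∃ i : Fin 3, t (y i) = x := by
    intro x
    rw [hYdef, Finset.mem_union, Finset.mem_image]
    simp
  have hY3' : ∀ x ∈ C 3, (x ∈ Y ↔ x ∈ Y3) := by
    intro x hx
    rw [hmY]
    refine ⟨fun h => h.resolve_right ?_, Or.inl⟩
    rintro ⟨i, rfl⟩
    exact hzY3 i hx
  have hYi : ∀ i : Fin 3, ∀ x ∈ C i.castSucc, (x ∈ Y ↔ x = t (y i)) := by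
    intro i x hx
    rw [hmY]
    constructor
    · rintro (h | ⟨j, h⟩)
      · exact absurd (hdis _ _ _ hx (hY3 h)) (hi3 i)
      · have h1 : i.castSucc = j.castSucc := hdis _ _ _ hx (h ▸ hyC j)
        have h2 : i = j := Fin.castSucc_injective _ h1
        rw [h2, h]
    · intro h
      exact Or.inr ⟨i, h.symm⟩
  have hptC : ∀ i, pt i ∈ C i := by
    intro i
    rcases hsplit i with rfl | ⟨j, rfl⟩
    · rw [hpt3]; exact hp
    · rw [hpti]; exact hyC j
  have hptY : ∀ i, pt i ∈ Y := by
    intro i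
    rcases hsplit i with rfl | ⟨j, rfl⟩
    · rw [hpt3, hmY]; exact Or.inl hpY
    · rw [hpti, hmY]; exact Or.inr ⟨j, rfl⟩
  -- the edges outside `Y`
  have ha : ∀ i : Fin 3, ∃ x ∈ C i.castSucc, x ∉ Y ∧ t x ∈ C 3 := by
    intro i
    have h1 : 3 ≤ ((C i.castSucc).filter fun x => t x ∈ C 3).card := by
      rw [← hE _ (hi3 i)]
      exact h3 _
    obtain ⟨x, hx, hne⟩ := Finset.exists_mem_ne (lt_of_lt_of_le (by norm_num) h1) (t (y i))
    rw [Finset.mem_filter] at hx
    exact ⟨x, hx.1, fun h => hne ((hYi i x hx.1).mp h), hx.2⟩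
  have hb' : ∀ i : Fin 3, ∃ x ∈ C 3, x ∉ Y ∧ t x ∈ C i.castSucc := by
    intro i
    have h1 : 3 ≤ ((C 3).filter fun x => t x ∈ C i.castSucc).card := by
      rw [hF _ (hi3 i)]
      exact h3 _
    obtain ⟨x, hx, hne⟩ := Finset.exists_mem_ne (lt_of_lt_of_le (by norm_num) h1) (y i)
    rw [Finset.mem_filter] at hx
    exact ⟨x, hx.1, fun h => hne (hyu i x ((hY3' x hx.1).mp h) hx.2), hx.2⟩
  refine ⟨P, Y, ?_, ?_, ?_, ?_, ?_, ?_⟩
  · intro x hx
    rcases (hmY x).mp hx with h | ⟨i, rfl⟩
    · exact hCA 3 (hY3 h)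
    · exact hCA _ (hyC i)
  · intro v hv
    obtain ⟨i, hi⟩ := hAC v hv
    obtain ⟨h1, h2, h4, -⟩ := hQpt i v hi
    rw [hPQ i v hi, hPQ i _ h1]
    exact ⟨hCA i h1, h2, h4⟩
  · intro v hv
    rcases (hmY v).mp hv with h | ⟨i, rfl⟩
    · have hv3 := hY3 h
      have hc := hcl v h
      refine ⟨?_, ?_⟩
      · by_cases ht : t v ∈ C 3
        · have e1 : b v = t v := by simp only [hb, if_pos ht]
          rw [e1] at hc
          exact (hmY _).mpr (Or.inl hc.2)
        · have h5 := (hcc v hv3 ht (col v)).mp rfl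
          have h6 := hyu _ v h h5
          exact (hmY _).mpr (Or.inr ⟨col v, by rw [← h6]⟩)
      · rw [hPQ 3 v hv3, hQ3]
        exact (hmY _).mpr (Or.inl hc.1)
    · refine ⟨?_, ?_⟩
      · rw [htt _ (hyA i)]
        exact (hmY _).mpr (Or.inl (hyY i))
      · rw [hPQ _ _ (hyC i)]
        have h5 := ((hQpt i.castSucc _ (hyC i)).2.2.2).mpr (hpti i).symm
        rw [h5]
        exact hv
  · intro v hv hPv
    obtain ⟨i, hi⟩ := hAC v hv
    rw [hPQ i v hi] at hPv
    have h1 := ((hQpt i v hi).2.2.2).mp hPv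
    refine ⟨h1 ▸ hptY i, ?_⟩
    have hni : n v ∈ C i := (hC i).2.1 v hi
    rw [hPQ i _ hni]
    intro h2
    have h4 := ((hQpt i _ hni).2.2.2).mp h2
    exact hn v (h4.trans h1.symm)
  · have h1 : (A.filter fun v => P v = v) ⊆ Finset.univ.image pt := by
      intro v hv
      rw [Finset.mem_filter] at hv
      obtain ⟨i, hi⟩ := hAC v hv.1
      have h2 := hv.2
      rw [hPQ i v hi] at h2
      rw [Finset.mem_image]
      exact ⟨i, Finset.mem_univ i, (((hQpt i v hi).2.2.2).mp h2).symm⟩
    calc (A.filter fun v => P v = v).card ≤ (Finset.univ.image pt).card :=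
          Finset.card_le_card h1
      _ ≤ (Finset.univ : Finset (Fin 4)).card := Finset.card_image_le
      _ = 4 := by simp
  · intro S hS hI hSo
    have hcell : ∀ i, C i ⊆ S ∨ ∀ x ∈ C i, x ∉ S := by
      intro i
      by_cases h : (C i ∩ S).Nonempty
      · left
        have h1 := (hC i).2.2 (C i ∩ S) Finset.inter_subset_left h (by
          intro x hx
          rw [Finset.mem_inter] at hx ⊢
          exact ⟨(hC i).2.1 x hx.1, hI x hx.2⟩)
        intro x hx
        rw [← h1] at hx
        exact (Finset.mem_inter.mp hx).2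
      · right
        intro x hx hxS
        exact h ⟨x, Finset.mem_inter.mpr ⟨hx, hxS⟩⟩
    rcases hcell 3 with h4 | h4
    · by_cases hall : ∀ i : Fin 3, C i.castSucc ⊆ S
      · exfalso
        have hSA : S = A := by
          refine Finset.Subset.antisymm hS fun x hx => ?_
          obtain ⟨i, hi⟩ := hAC x hx
          rcases hsplit i with rfl | ⟨j, rfl⟩
          · exact h4 hi
          · exact hall j hi
        have h5 := even_invol A t hP
        rw [hSA] at hSo
        exact (Nat.not_even_iff_odd.mpr hSo) h5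
      · push Not at hall
        obtain ⟨i, hi⟩ := hall
        have h5 := (hcell i.castSucc).resolve_left hi
        obtain ⟨x, hx, hxY, htx⟩ := hb' i
        exact ⟨x, h4 hx, hxY, h5 _ htx⟩
    · by_cases hall : ∀ i : Fin 3, ∀ x ∈ C i.castSucc, x ∉ S
      · exfalso
        have hSe : S = ∅ := by
          rw [Finset.eq_empty_iff_forall_notMem]
          intro x hx
          obtain ⟨i, hi⟩ := hAC x (hS hx)
          rcases hsplit i with rfl | ⟨j, rfl⟩
          · exact h4 x hi hx
          · exact hall j x hi hx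
        rw [hSe] at hSo
        simp at hSo
      · push Not at hall
        obtain ⟨i, z, hz, hzS⟩ := hall
        have h5 : C i.castSucc ⊆ S := by
          rcases hcell i.castSucc with h | h
          · exact h
          · exact absurd hzS (h z hz)
        obtain ⟨x, hx, hxY, htx⟩ := ha i
        exact ⟨x, h5 hx, hxY, h4 _ htx⟩

end Pool.Agent.Helper2.FRC.STAR
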